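import Pool.Agent.H7.Mont.Proof

set_option autoImplicit false

open Filter Topology MvPolynomial Pool.Agent.H7.Mont

namespace Pool.Agent.Results.MP_a75ade_an.NoMontessus

/-- For every `ν ≥ 2`, the function `f = F / G` with `F = 1` and `G = 1 - z₁^ν` is a
counterexample: for every choice of interpolation sets `S n` for type `(n, ν)` there are
rational approximants `P n / Q n` of type `(n, ν)` to `f` corresponding to `S n` which do not
converge to `f` on `ℂ² \ {G = 0}`; at one point `z` with `G z ≠ 0` they are even unbounded along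
indices with `Q n z ≠ 0`. -/
theorem result (ν : ℕ) (hν : 2 ≤ ν) :
    ∃ (F : MvPowerSeries (Fin 2) ℂ) (G : MvPolynomial (Fin 2) ℂ),
      F = 1 ∧ G = 1 - X 0 ^ ν ∧
      IsEntire F ∧ G.totalDegree = ν ∧ constantCoeff G ≠ 0 ∧
      ∀ S : ℕ → Finset (ℕ × ℕ), (∀ n, IsInterpolationSet n ν (S n)) →
        ∃ P Q : ℕ → MvPolynomial (Fin 2) ℂ,
          (∀ n, IsApproximant n ν (S n)
            (F * (G : MvPowerSeries (Fin 2) ℂ)⁻¹) (P n) (Q n)) ∧
          ¬ ConvergesOff F G P Q ∧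
          ∃ z : Fin 2 → ℂ, eval z G ≠ 0 ∧
            ∀ C : ℝ, ∃ᶠ n in atTop, eval z (Q n) ≠ 0 ∧ C < ‖eval z (P n) / eval z (Q n)‖ := by
  obtain ⟨h1, h2, h3, h4⟩ := main ν hν
  exact ⟨1, 1 - X 0 ^ ν, rfl, rfl, h1, h2, h3, h4⟩

end Pool.Agent.Results.MP_a75ade_an.NoMontessus
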